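import Pool.Agent.Helper79.UN.NGoals
import Pool.Agent.Helper79.UN.Lib

/-! # MP_57a173_lc: packet SG -/

noncomputable section

namespace UN.PkSG

open Pool.Agent.Helper97.Ku NU UL

variable {L : Type} [CompleteBooleanAlgebra L]

theorem le_iffV {a b c : L} (h1 : c ⊓ a ≤ b) (h2 : c ⊓ b ≤ a) : c ≤ iffV a b :=
  le_inf (le_himp_iff.2 h1) (le_himp_iff.2 h2)

theorem eq_of_iffV {a b : L} (h : iffV a b = ⊤) : a = b := by
  rw [iffV, inf_eq_top_iff, himp_eq_top_iff, himp_eq_top_iff] at h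
  exact le_antisymm h.1 h.2

/-- A predicate saying that the members of `Z` are given by `P` is the equality with any name
whose members are given by `P`. -/
theorem eq_of_mem (Z W : BSet L) (P : BSet L → L) (h : ∀ x : BSet L, x.mem W = P x) :
    (⨅ x : BSet L, iffV (x.mem Z) (P x)) = Z.eq W := by
  rw [BSet.eq_iff_ext]
  refine iInf_congr fun x => ?_
  rw [h x, iffV]

theorem sg_pf (cmp_ : U_CMP) (sq_ : U_SQ) (ex1 : U_EX1) : U_SG := by
  intro L _ K S
  have h2 : ∀ Y : BSet L, isSigV omN K S ⊓ Y.mem S ≤ (cmp K fun x => (x.mem Y)ᶜ).mem S := by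
    intro Y
    have hW : ∀ x : BSet L, x.mem (cmp K fun x => (x.mem Y)ᶜ) = x.mem K ⊓ (x.mem Y)ᶜ :=
      (cmp_ L K).1 _ (BSet.Ext.compl (BSet.Ext.mem_left Y))
    have h1 : isSigV omN K S ≤ (Y.mem S ⇨ ⨆ Z : BSet L, (Z.mem S ⊓ isCplV K Y Z)) :=
      le_trans inf_le_right (le_trans inf_le_right (le_trans inf_le_left (iInf_le _ Y)))
    refine le_trans (le_himp_iff.1 h1) (iSup_le fun Z => ?_)
    rw [isCplV, eq_of_mem Z _ _ hW, inf_comm]
    exact BSet.mem_congr_left _ _ _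
  have h3 : ∀ t : ℕ → BSet L, isSigV omN K S ⊓ (⨅ n, (t n).mem S) ≤
      (cmp K fun x => ⨆ n, x.mem (t n)).mem S := by
    intro t
    have hθ : ∀ n, BSet.Ext (fun x : BSet L => x.mem (t n)) := fun n => BSet.Ext.mem_left (t n)
    obtain ⟨_, hs2, hs3, _⟩ := sq_ L K (fun n x => x.mem (t n)) hθ
    have hW : ∀ x : BSet L, x.mem (cmp K fun x => ⨆ n, x.mem (t n)) = x.mem K ⊓
        ⨆ n : BSet L, (n.mem omN ⊓ apV (sq K fun n x => x.mem (t n)) n x) := by
      intro x
      have h4 := hs3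
      rw [isUnV, iInf_eq_top] at h4
      exact eq_of_iffV (h4 x)
    have h4 : isSigV omN K S ≤ ((⨅ n : BSet L, (n.mem omN ⇨ ⨆ Y : BSet L, (Y.mem S ⊓
        isSecV K (sq K fun n x => x.mem (t n)) n Y))) ⇨
        ⨆ Z : BSet L, (Z.mem S ⊓ isUnV omN K (sq K fun n x => x.mem (t n)) Z)) :=
      le_trans inf_le_right (le_trans inf_le_right (le_trans inf_le_right (iInf_le _ _)))
    have h5 : isSigV omN K S ⊓ (⨅ n, (t n).mem S) ≤ (⨅ n : BSet L, (n.mem omN ⇨
        ⨆ Y : BSet L, (Y.mem S ⊓ isSecV K (sq K fun n x => x.mem (t n)) n Y))) := by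
      refine le_iInf fun u => ?_
      rw [le_himp_iff, (Lib.nat L).2.1 u, inf_iSup_eq]
      refine iSup_le fun n => ?_
      have hext : BSet.Ext (fun u : BSet L => ⨆ Y : BSet L, (Y.mem S ⊓
          isSecV K (sq K fun n x => x.mem (t n)) u Y)) := by
        refine BSet.Ext.iSup fun Y => ?_
        refine BSet.Ext.inf (BSet.Ext.const _) ?_
        exact ((ex1 L omN K K).1 (sq K fun n x => x.mem (t n)) Y).1
      have h6 : isSigV omN K S ⊓ (⨅ n, (t n).mem S) ≤ ⨆ Y : BSet L, (Y.mem S ⊓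
          isSecV K (sq K fun n x => x.mem (t n)) (nn n) Y) := by
        refine le_trans ?_ (le_iSup _ (t n))
        have h7 : isSigV omN K S ⊓ (⨅ n, (t n).mem S) ≤ (t n).mem S :=
          le_trans inf_le_right (iInf_le _ n)
        refine le_inf h7 ?_
        have h8 : isSigV omN K S ≤ ((t n).mem S ⇨ subV (t n) K) :=
          le_trans inf_le_left (iInf_le _ (t n))
        have h9 : isSigV omN K S ⊓ (⨅ n, (t n).mem S) ≤ subV (t n) K :=
          le_trans (le_inf inf_le_left h7) (le_himp_iff.1 h8)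
        refine le_trans h9 ?_
        rw [isSecV]
        refine le_iInf fun x => ?_
        rw [hs2 n x]
        refine le_iffV ?_ ?_
        · have h10 : subV (t n) K ⊓ x.mem (t n) ≤ x.mem K :=
            le_himp_iff.1 (iInf_le (fun x : BSet L => (x.mem (t n) ⇨ x.mem K)) x)
          exact le_inf h10 (le_inf h10 inf_le_right)
        · exact le_trans inf_le_right (le_trans inf_le_right inf_le_right)
      refine le_trans ?_ (hext (nn n) u)
      refine le_inf ?_ (le_trans inf_le_left h6)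
      rw [BSet.eq_comm' (nn n) u]
      exact inf_le_right
    refine le_trans (le_trans (le_inf inf_le_left h5) (le_himp_iff.1 h4)) (iSup_le fun Z => ?_)
    rw [isUnV, eq_of_mem Z _ _ hW, inf_comm]
    exact BSet.mem_congr_left _ _ _
  refine ⟨?_, h2, h3⟩
  have h1 : isSigV omN K S ≤ ⨆ Y : BSet L, Y.mem S := le_trans inf_le_right inf_le_left
  refine le_trans (le_inf le_rfl h1) ?_
  rw [inf_iSup_eq]
  refine iSup_le fun Y => ?_
  have h4 := h3 (fun n => if n = 0 then Y else cmp K fun x => (x.mem Y)ᶜ)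
  have h5 : isSigV omN K S ⊓ Y.mem S ≤ isSigV omN K S ⊓
      (⨅ n : ℕ, (if n = 0 then Y else cmp K fun x => (x.mem Y)ᶜ).mem S) := by
    refine le_inf inf_le_left (le_iInf fun n => ?_)
    by_cases hn : n = 0
    · rw [if_pos hn]; exact inf_le_right
    · rw [if_neg hn]; exact h2 Y
  refine le_trans (le_trans h5 h4) ?_
  set W : BSet L := cmp K fun x => ⨆ n : ℕ, x.mem (if n = 0 then Y else
    cmp K fun x => (x.mem Y)ᶜ) with hWdef
  have hW : ∀ x : BSet L, x.mem W = x.mem K ⊓ ⨆ n : ℕ, x.mem (if n = 0 then Y else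
    cmp K fun x => (x.mem Y)ᶜ) :=
    (cmp_ L K).1 _ (BSet.Ext.iSup fun n => BSet.Ext.mem_left _)
  have hWK : ∀ x : BSet L, x.mem W = x.mem K := by
    intro x
    rw [hW x, inf_eq_left]
    have ha : x.mem Y ≤ ⨆ n : ℕ, x.mem (if n = 0 then Y else cmp K fun x => (x.mem Y)ᶜ) := by
      refine le_trans ?_ (le_iSup _ 0)
      rw [if_pos rfl]
    have hb : x.mem K ⊓ (x.mem Y)ᶜ ≤
        ⨆ n : ℕ, x.mem (if n = 0 then Y else cmp K fun x => (x.mem Y)ᶜ) := by
      refine le_trans ?_ (le_iSup _ 1)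
      rw [if_neg one_ne_zero, (cmp_ L K).1 _ (BSet.Ext.compl (BSet.Ext.mem_left Y))]
    calc x.mem K = x.mem K ⊓ (x.mem Y ⊔ (x.mem Y)ᶜ) := by rw [sup_compl_eq_top, inf_top_eq]
      _ = (x.mem K ⊓ x.mem Y) ⊔ (x.mem K ⊓ (x.mem Y)ᶜ) := inf_sup_left _ _ _
      _ ≤ _ := sup_le (le_trans inf_le_right ha) hb
  have hEq : W.eq K = ⊤ := by
    rw [BSet.eq_iff_ext, iInf_eq_top]
    intro x
    rw [hWK x, himp_self, inf_top_eq]
  have h6 := BSet.mem_congr_left W K S
  rw [hEq, top_inf_eq] at h6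
  exact h6

end UN.PkSG
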